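import Mathlib

/-!
# GF/SR: Taylor coefficients of the sums of powers of consecutive integers (core, Mathlib only)
-/

set_option autoImplicit false

namespace Pool.Agent.N833.GF

open Finset Filter Topology

/-- the binomial coefficients -/
noncomputable def bn (s : ℝ) (i : ℕ) : ℝ := ∏ l ∈ range i, ((s - l) / (l + 1))

theorem bn_zero (s : ℝ) : bn s 0 = 1 := by simp [bn]

theorem bn_succ (s : ℝ) (i : ℕ) : bn s (i + 1) = bn s i * ((s - i) / (i + 1)) := by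
  rw [bn, prod_range_succ]
  rfl

theorem bn_shift (s : ℝ) (i : ℕ) : ((i : ℝ) + 1) * bn s (i + 1) = s * bn (s - 1) i := by
  induction i with
  | zero => simp [bn]
  | succ i ih =>
    have h1 : ((i : ℝ) + 1) ≠ 0 := by positivity
    have h2 : ((i : ℝ) + 1 + 1) ≠ 0 := by positivity
    rw [bn_succ s (i + 1), bn_succ (s - 1) i]
    push_cast
    have h3 : bn s (i + 1) = s * bn (s - 1) i / ((i : ℝ) + 1) := by
      field_simp
      linarith
    rw [h3]
    field_simp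
    ring

/-- the remainder of the binomial series -/
noncomputable def Rm (s : ℝ) (i : ℕ) (ε : ℝ) : ℝ := (1 + ε) ^ s - ∑ l ∈ range i, bn s l * ε ^ l

theorem Rm_deriv (s : ℝ) (i : ℕ) {ε : ℝ} (hε : 0 ≤ ε) :
    HasDerivAt (Rm s (i + 1)) (s * Rm (s - 1) i ε) ε := by
  have h1 : HasDerivAt (fun x : ℝ => (1 + x) ^ s) (s * (1 + ε) ^ (s - 1)) ε := by
    have h2 : HasDerivAt (fun x : ℝ => 1 + x) 1 ε := by
      simpa using (hasDerivAt_id ε).const_add 1
    have h3 := h2.rpow_const (p := s) (Or.inl (by positivity))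
    convert h3 using 1
    ring
  have h4 : HasDerivAt (fun x : ℝ => ∑ l ∈ range (i + 1), bn s l * x ^ l)
      (∑ l ∈ range (i + 1), bn s l * ((l : ℝ) * ε ^ (l - 1))) ε := by
    refine HasDerivAt.fun_sum fun l _ => ?_
    exact (hasDerivAt_pow l ε).const_mul (bn s l)
  have h5 : HasDerivAt (Rm s (i + 1)) (s * (1 + ε) ^ (s - 1) -
      ∑ l ∈ range (i + 1), bn s l * ((l : ℝ) * ε ^ (l - 1))) ε := h1.sub h4
  have h6 : s * Rm (s - 1) i ε = s * (1 + ε) ^ (s - 1) -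
      ∑ l ∈ range (i + 1), bn s l * ((l : ℝ) * ε ^ (l - 1)) := by
    rw [sum_range_succ', Rm, mul_sub, mul_sum]
    simp only [Nat.cast_zero, zero_mul, mul_zero, add_zero, Nat.add_sub_cancel]
    congr 1
    refine sum_congr rfl fun l _ => ?_
    have := bn_shift s l
    push_cast
    linear_combination (-ε ^ l) * this
  rw [h6]
  exact h5

/-- the bound for the remainder -/
theorem Rm_le (i : ℕ) : ∀ (s B ε : ℝ), 0 ≤ ε → (∀ τ, 0 ≤ τ → τ ≤ ε → (1 + τ) ^ (s - i) ≤ B) →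
    |Rm s i ε| ≤ |bn s i| * ε ^ i * B := by
  induction i with
  | zero =>
    intro s B ε hε hB
    have h1 := hB ε hε le_rfl
    rw [Nat.cast_zero, sub_zero] at h1
    rw [Rm, sum_range_zero, sub_zero, bn_zero, abs_one, pow_zero, one_mul, one_mul,
      abs_of_nonneg (by positivity)]
    exact h1
  | succ i ih =>
    intro s B ε hε hB
    have key := image_norm_le_of_norm_deriv_right_le_deriv_boundary
      (f := Rm s (i + 1)) (f' := fun τ => s * Rm (s - 1) i τ) (a := 0) (b := ε)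
      (B := fun τ => |bn s (i + 1)| * τ ^ (i + 1) * B)
      (B' := fun τ => |bn s (i + 1)| * (((i + 1 : ℕ) : ℝ) * τ ^ i) * B) ?_ ?_ ?_ ?_ ?_
      (Set.right_mem_Icc.2 hε)
    · exact key
    · intro x hx
      exact (Rm_deriv s i hx.1).continuousAt.continuousWithinAt
    · intro x hx
      exact (Rm_deriv s i hx.1).hasDerivWithinAt
    · have : Rm s (i + 1) 0 = 0 := by
        rw [Rm, sum_range_succ']
        simp [bn_zero]
      rw [this, norm_zero]
      have hB0 : 0 ≤ B := by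
        have := hB 0 le_rfl hε
        rw [add_zero, Real.one_rpow] at this
        linarith
      positivity
    · intro x
      have := ((hasDerivAt_pow (i + 1) x).const_mul |bn s (i + 1)|).mul_const B
      simpa using this
    · intro x hx
      have h1 := ih (s - 1) B x hx.1 (fun τ h0 h1 => by
        have := hB τ h0 (h1.trans hx.2.le)
        rwa [show s - ((i + 1 : ℕ) : ℝ) = s - 1 - i by push_cast; ring] at this)
      rw [Real.norm_eq_abs, abs_mul]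
      have h2 : |s| * |bn (s - 1) i| = ((i : ℝ) + 1) * |bn s (i + 1)| := by
        rw [← abs_mul, ← bn_shift, abs_mul, abs_of_nonneg (by positivity : (0 : ℝ) ≤ (i : ℝ) + 1)]
      calc |s| * |Rm (s - 1) i x| ≤ |s| * (|bn (s - 1) i| * x ^ i * B) :=
            mul_le_mul_of_nonneg_left h1 (abs_nonneg _)
        _ = (|s| * |bn (s - 1) i|) * x ^ i * B := by ring
        _ = |bn s (i + 1)| * (((i + 1 : ℕ) : ℝ) * x ^ i) * B := by
            rw [h2]
            push_cast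
            ring

/-- the form of the bound that is used -/
theorem Rm_le' {σ s ε : ℝ} {i : ℕ} (h0 : 0 ≤ ε) (h1 : ε ≤ 1) (hs : s - i ≤ |σ|) :
    |Rm s i ε| ≤ |bn s i| * ε ^ i * 2 ^ |σ| := by
  refine Rm_le i s _ ε h0 fun τ h2 h3 => ?_
  calc (1 + τ) ^ (s - i) ≤ (1 + τ) ^ |σ| :=
        Real.rpow_le_rpow_of_exponent_le (by linarith) hs
    _ ≤ 2 ^ |σ| := Real.rpow_le_rpow (by linarith) (by linarith) (abs_nonneg _)

theorem bn_le (σ : ℝ) (k : ℕ) : |bn σ k| ≤ (1 + |σ|) ^ k := by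
  induction k with
  | zero => simp [bn_zero]
  | succ k ih =>
    rw [bn_succ, abs_mul, pow_succ]
    refine mul_le_mul ih ?_ (abs_nonneg _) (by positivity)
    rw [abs_div, abs_of_nonneg (by positivity : (0 : ℝ) ≤ (k : ℝ) + 1), div_le_iff₀ (by positivity)]
    have h1 : |σ - k| ≤ |σ| + k := by
      refine (abs_sub _ _).trans ?_
      rw [Nat.abs_cast]
    have h2 : 0 ≤ |σ| * k := by positivity
    nlinarith [abs_nonneg σ]

/-- the binomial series -/
theorem hasSum_bn {σ ε : ℝ} (h0 : 0 ≤ ε) (h1 : (1 + |σ|) * ε ≤ 1 / 2) :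
    HasSum (fun k => bn σ k * ε ^ k) ((1 + ε) ^ σ) := by
  have hε1 : ε ≤ 1 := by nlinarith [abs_nonneg σ]
  have hb : ∀ k, |bn σ k| * ε ^ k ≤ (1 / 2) ^ k := by
    intro k
    calc |bn σ k| * ε ^ k ≤ (1 + |σ|) ^ k * ε ^ k :=
          mul_le_mul_of_nonneg_right (bn_le σ k) (by positivity)
      _ = ((1 + |σ|) * ε) ^ k := by rw [mul_pow]
      _ ≤ (1 / 2) ^ k := pow_le_pow_left₀ (by positivity) h1 k
  have hs : Summable fun k => bn σ k * ε ^ k := by
    refine Summable.of_norm_bounded (g := fun k => (1 / 2 : ℝ) ^ k)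
      (summable_geometric_of_lt_one (by norm_num) (by norm_num)) fun k => ?_
    rw [Real.norm_eq_abs, abs_mul, abs_of_nonneg (pow_nonneg h0 k)]
    exact hb k
  rw [hs.hasSum_iff_tendsto_nat, tendsto_iff_norm_sub_tendsto_zero]
  have h2 : Tendsto (fun n : ℕ => (1 / 2 : ℝ) ^ n * 2 ^ |σ|) atTop (𝓝 0) := by
    have := (tendsto_pow_atTop_nhds_zero_of_lt_one (r := (1 / 2 : ℝ)) (by norm_num)
      (by norm_num)).mul_const (2 ^ |σ|)
    rwa [zero_mul] at this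
  refine squeeze_zero (fun n => norm_nonneg _) (fun n => ?_) h2
  rw [Real.norm_eq_abs, abs_sub_comm]
  refine (Rm_le' (σ := σ) (s := σ) (i := n) h0 hε1 ?_).trans
    (mul_le_mul_of_nonneg_right (hb n) (by positivity))
  have := le_abs_self σ
  have h3 : (0 : ℝ) ≤ n := Nat.cast_nonneg n
  linarith

/-- the distance of `σ` to the natural numbers -/
theorem exists_dist {σ : ℝ} (hσ : ∀ n : ℕ, σ ≠ n) :
    ∃ d : ℝ, 0 < d ∧ d ≤ 1 ∧ ∀ n : ℕ, d ≤ |σ - n| := by
  have key : ∀ N : ℕ, ∃ d : ℝ, 0 < d ∧ d ≤ 1 ∧ ∀ n < N, d ≤ |σ - n| := by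
    intro N
    induction N with
    | zero => exact ⟨1, one_pos, le_rfl, fun n hn => absurd hn (Nat.not_lt_zero n)⟩
    | succ N ih =>
      obtain ⟨d, h1, h2, h3⟩ := ih
      have h4 : 0 < |σ - N| := abs_pos.2 (sub_ne_zero.2 (hσ N))
      refine ⟨min d |σ - N|, lt_min h1 h4, (min_le_left _ _).trans h2, fun n hn => ?_⟩
      rcases Nat.lt_succ_iff_lt_or_eq.1 hn with h | rfl
      · exact (min_le_left _ _).trans (h3 n h)
      · exact min_le_right _ _
  obtain ⟨N, hN⟩ := exists_nat_ge (σ + 1)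
  obtain ⟨d, h1, h2, h3⟩ := key N
  refine ⟨d, h1, h2, fun n => ?_⟩
  rcases Nat.lt_or_ge n N with h | h
  · exact h3 n h
  · have h5 : (N : ℝ) ≤ n := by exact_mod_cast h
    rw [abs_sub_comm, le_abs]
    left
    linarith

/-- the lower bound for the binomial coefficients -/
theorem le_bn {s d : ℝ} (hd0 : 0 ≤ d) (hs : ∀ l : ℕ, d ≤ |s - l|) (i : ℕ) :
    d ^ i / (i.factorial : ℝ) ≤ |bn s i| := by
  induction i with
  | zero => simp [bn_zero]
  | succ i ih =>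
    rw [bn_succ, abs_mul, abs_div, abs_of_nonneg (by positivity : (0 : ℝ) ≤ (i : ℝ) + 1)]
    calc d ^ (i + 1) / ((i + 1).factorial : ℝ) = d ^ i / (i.factorial : ℝ) * (d / ((i : ℝ) + 1)) := by
          rw [Nat.factorial_succ]
          push_cast
          field_simp
          ring
      _ ≤ |bn s i| * (|s - i| / ((i : ℝ) + 1)) := by
          refine mul_le_mul ih ?_ (by positivity) (abs_nonneg _)
          exact div_le_div_of_nonneg_right (hs i) (by positivity)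

theorem bn_le2 {s E : ℝ} (i : ℕ) (hE : 0 ≤ E) (h : ∀ l < i, |s - l| ≤ E) : |bn s i| ≤ E ^ i := by
  induction i with
  | zero => simp [bn_zero]
  | succ i ih =>
    rw [bn_succ, abs_mul, pow_succ, abs_div, abs_of_nonneg (by positivity : (0 : ℝ) ≤ (i : ℝ) + 1)]
    refine mul_le_mul (ih fun l hl => h l (by omega)) ?_ (by positivity) (by positivity)
    refine (div_le_self (abs_nonneg _) ?_).trans (h i (by omega))
    have : (0 : ℝ) ≤ i := Nat.cast_nonneg i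
    linarith

/-- some power sum is not zero -/
theorem exists_ps {r : ℕ} {t : Fin r → ℕ} (ht : Function.Injective t) {h : Fin r → ℤ} (hh : h ≠ 0) :
    ∃ i : ℕ, i < r ∧ ∑ j, h j * (t j : ℤ) ^ i ≠ 0 := by
  by_contra hcon
  push Not at hcon
  apply hh
  have hd : (Matrix.vandermonde fun j => (t j : ℤ)).det ≠ 0 := by
    rw [Matrix.det_vandermonde_ne_zero_iff]
    exact fun a b e => ht (Int.ofNat_injective e)
  refine Matrix.eq_zero_of_vecMul_eq_zero hd ?_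
  funext i
  rw [Matrix.vecMul, dotProduct]
  simp only [Matrix.vandermonde_apply, Pi.zero_apply]
  exact hcon i i.2

section expand

variable {r : ℕ} (t : Fin r → ℕ) (h : Fin r → ℤ) (m : ℝ)

/-- the power sums -/
noncomputable def Sp (i : ℕ) : ℝ := ∑ j, (h j : ℝ) * (t j : ℝ) ^ i

/-- the sum of the powers -/
noncomputable def Gs (s : ℝ) : ℝ := ∑ j, (h j : ℝ) * (1 + (t j : ℝ) / m) ^ s

theorem Gs_eq (s : ℝ) (i : ℕ) : Gs t h m s = ∑ l ∈ range i, bn s l * (1 / m) ^ l * Sp t h l +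
    ∑ j, (h j : ℝ) * Rm s i ((t j : ℝ) / m) := by
  have h1 : ∑ l ∈ range i, bn s l * (1 / m) ^ l * Sp t h l =
      ∑ j, (h j : ℝ) * ∑ l ∈ range i, bn s l * ((t j : ℝ) / m) ^ l := by
    simp only [Sp, mul_sum]
    rw [sum_comm]
    refine sum_congr rfl fun j _ => sum_congr rfl fun l _ => ?_
    rw [div_eq_mul_one_div (t j : ℝ) m, mul_pow]
    ring
  rw [h1, ← sum_add_distrib, Gs]
  refine sum_congr rfl fun j _ => ?_
  rw [Rm]
  ring

theorem sum_Rm_le {σ s T : ℝ} {K : ℕ} {i : ℕ} (hm : 0 < m) (hK : ∀ j, |h j| ≤ K)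
    (hT : ∀ j, (t j : ℝ) ≤ T) (hTm : T ≤ m) (hs : s - i ≤ |σ|) :
    |∑ j, (h j : ℝ) * Rm s i ((t j : ℝ) / m)| ≤ r * K * (|bn s i| * (T / m) ^ i * 2 ^ |σ|) := by
  refine (Finset.abs_sum_le_sum_abs _ _).trans ?_
  have h1 : ∀ j ∈ (univ : Finset (Fin r)), |(h j : ℝ) * Rm s i ((t j : ℝ) / m)| ≤
      K * (|bn s i| * (T / m) ^ i * 2 ^ |σ|) := by
    intro j _
    have h2 : |(h j : ℝ)| ≤ K := by exact_mod_cast hK j
    have h3 : (0 : ℝ) ≤ (t j : ℝ) / m := by positivity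
    have h4 : (t j : ℝ) / m ≤ T / m := div_le_div_of_nonneg_right (hT j) hm.le
    have h5 : (t j : ℝ) / m ≤ 1 := h4.trans ((div_le_one hm).2 hTm)
    rw [abs_mul]
    refine mul_le_mul h2 ?_ (abs_nonneg _) (Nat.cast_nonneg K)
    refine (Rm_le' (σ := σ) h3 h5 hs).trans ?_
    refine mul_le_mul_of_nonneg_right (mul_le_mul_of_nonneg_left ?_ (abs_nonneg _)) (by positivity)
    exact pow_le_pow_left₀ h3 h4 i
  refine (sum_le_sum h1).trans ?_
  rw [sum_const, card_univ, Fintype.card_fin, nsmul_eq_mul]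
  exact (mul_assoc _ _ _).symm.le

end expand

/-- the thresholds -/
theorem exists_M0 (σ : ℝ) (r K : ℕ) (T : ℝ) : ∃ M0 : ℕ, ∀ M : ℕ, M0 ≤ M → 1 ≤ (M : ℝ) ∧ T ≤ M ∧
    (1 + |σ|) * ((M : ℝ) ^ (4 / 5 : ℝ) / M) ≤ 1 / 2 ∧
    r * K * (|σ| + Real.log M + r) * T ^ (r + 1) * 2 ^ |σ| / M ≤ 1 / 2 := by
  have h1 : ∀ᶠ x : ℝ in atTop, 1 ≤ x := eventually_ge_atTop 1
  have h2 : ∀ᶠ x : ℝ in atTop, T ≤ x := eventually_ge_atTop T
  have h3 : ∀ᶠ x : ℝ in atTop, (1 + |σ|) * (x ^ (4 / 5 : ℝ) / x) ≤ 1 / 2 := by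
    have h4 : Tendsto (fun x : ℝ => (1 + |σ|) * x ^ (-(1 / 5 : ℝ))) atTop (𝓝 0) := by
      have := (tendsto_rpow_neg_atTop (y := (1 / 5 : ℝ)) (by norm_num)).const_mul (1 + |σ|)
      rwa [mul_zero] at this
    filter_upwards [h4.eventually_le_const (u := 1 / 2) (by norm_num), h1] with x hx hx1
    have h5 : x ^ (4 / 5 : ℝ) / x = x ^ (-(1 / 5 : ℝ)) := by
      have hx0 : 0 < x := by linarith
      have : x ^ (4 / 5 : ℝ) / x = x ^ (4 / 5 : ℝ) / x ^ (1 : ℝ) := by rw [Real.rpow_one]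
      rw [this, ← Real.rpow_sub hx0]
      norm_num
    rw [h5]
    exact hx
  have h4 : ∀ᶠ x : ℝ in atTop,
      r * K * (|σ| + Real.log x + r) * T ^ (r + 1) * 2 ^ |σ| / x ≤ 1 / 2 := by
    have h5 : Tendsto (fun x : ℝ => Real.log x / x) atTop (𝓝 0) :=
      Real.isLittleO_log_id_atTop.tendsto_div_nhds_zero
    have h6 : Tendsto (fun x : ℝ => 1 / x) atTop (𝓝 0) := by
      simpa using tendsto_inv_atTop_zero (𝕜 := ℝ)
    have h7 : Tendsto (fun x : ℝ => (r * K * (|σ| + r) * T ^ (r + 1) * 2 ^ |σ|) * (1 / x) +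
        (r * K * T ^ (r + 1) * 2 ^ |σ|) * (Real.log x / x)) atTop (𝓝 0) := by
      have := (h6.const_mul (r * K * (|σ| + r) * T ^ (r + 1) * 2 ^ |σ|)).add
        (h5.const_mul (r * K * T ^ (r + 1) * 2 ^ |σ|))
      rwa [mul_zero, mul_zero, add_zero] at this
    filter_upwards [h7.eventually_le_const (u := 1 / 2) (by norm_num)] with x hx
    refine le_trans (le_of_eq ?_) hx
    ring
  have h5 := (h1.and (h2.and (h3.and h4)))
  have h6 := tendsto_natCast_atTop_atTop (R := ℝ) |>.eventually h5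
  obtain ⟨M0, hM0⟩ := eventually_atTop.1 h6
  exact ⟨M0, fun M hM => hM0 M hM⟩

/-- the series -/
theorem series {σ M m y : ℝ} {r : ℕ} (t : Fin r → ℕ) (h : Fin r → ℤ) (i0 : ℕ) (hM : 0 < M)
    (hMm : M ≤ m) (hy0 : 0 ≤ y) (hy : (1 + |σ|) * (y / M) ≤ 1 / 2) :
    HasSum (fun k : ℕ => M ^ (σ - i0) * (bn σ k * M ^ i0 * (m / M) ^ (σ - k) *
      Gs t h m (σ - k)) * (y / M) ^ k) (∑ j, (h j : ℝ) * (m + t j + y) ^ σ) := by
  have hm : 0 < m := by linarith
  have key : ∀ j, HasSum (fun k : ℕ => (h j : ℝ) * (bn σ k * y ^ k * (m + t j) ^ (σ - k)))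
      ((h j : ℝ) * (m + t j + y) ^ σ) := by
    intro j
    refine HasSum.mul_left _ ?_
    have hmt : 0 < m + t j := by positivity
    have h1 : 0 ≤ y / (m + t j) := by positivity
    have h2 : y / (m + t j) ≤ y / M := by
      have h3 : (0 : ℝ) ≤ t j := Nat.cast_nonneg _
      exact div_le_div_of_nonneg_left hy0 hM (by linarith)
    have h3 : (1 + |σ|) * (y / (m + t j)) ≤ 1 / 2 :=
      (mul_le_mul_of_nonneg_left h2 (by positivity)).trans hy
    have h4 := (hasSum_bn (σ := σ) h1 h3).mul_left ((m + t j) ^ σ)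
    have h5 : (m + t j) ^ σ * (1 + y / (m + t j)) ^ σ = (m + t j + y) ^ σ := by
      rw [← Real.mul_rpow hmt.le (by positivity)]
      congr 1
      field_simp
    rw [h5] at h4
    convert h4 using 1
    funext k
    rw [Real.rpow_sub hmt, Real.rpow_natCast, div_pow]
    ring
  have h6 := hasSum_sum (s := univ) fun j _ => key j
  convert h6 using 1
  funext k
  have h7 : M ^ (σ - i0) * M ^ i0 * (m / M) ^ (σ - k) / M ^ k = m ^ (σ - k) := by
    rw [Real.div_rpow hm.le hM.le, Real.rpow_sub hM, Real.rpow_natCast, Real.rpow_sub hM σ k,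
      Real.rpow_natCast]
    have := Real.rpow_pos_of_pos hM σ
    have h8 : (M : ℝ) ^ i0 ≠ 0 := by positivity
    have h9 : (M : ℝ) ^ k ≠ 0 := by positivity
    field_simp
  have h8 : ∀ j, (m + t j) ^ (σ - k) = m ^ (σ - k) * (1 + (t j : ℝ) / m) ^ (σ - k) := by
    intro j
    rw [← Real.mul_rpow hm.le (by positivity)]
    congr 1
    field_simp
  calc M ^ (σ - i0) * (bn σ k * M ^ i0 * (m / M) ^ (σ - k) * Gs t h m (σ - k)) * (y / M) ^ k
      = bn σ k * y ^ k * (M ^ (σ - i0) * M ^ i0 * (m / M) ^ (σ - k) / M ^ k) *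
        Gs t h m (σ - k) := by
        rw [div_pow]
        ring
    _ = bn σ k * y ^ k * m ^ (σ - k) * Gs t h m (σ - k) := by rw [h7]
    _ = ∑ j, (h j : ℝ) * (bn σ k * y ^ k * (m + t j) ^ (σ - k)) := by
        rw [Gs, mul_sum]
        refine sum_congr rfl fun j _ => ?_
        rw [h8 j]
        ring

/-- the bound for the binomial coefficients of small order -/
theorem bn_small {σ : ℝ} {r k i0 : ℕ} (hi0 : i0 < r) :
    |bn (σ - k) i0| ≤ (|σ| + r + 1) ^ r * (2 ^ r) ^ k := by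
  have hσ0 := abs_nonneg σ
  have hk0 : (0 : ℝ) ≤ k := Nat.cast_nonneg k
  have hr0 : (0 : ℝ) ≤ r := Nat.cast_nonneg r
  set D : ℝ := |σ| + r + 1 with hD
  have hD1 : 1 ≤ D := by linarith
  have h3 : |bn (σ - k) i0| ≤ (D * (k + 1)) ^ r := by
    have h4 : 1 ≤ D * (k + 1) := by nlinarith
    refine (bn_le2 (E := D * (k + 1)) i0 (by positivity) fun l hl => ?_).trans
      (pow_le_pow_right₀ h4 hi0.le)
    have h5 : |σ - k - l| ≤ |σ| + k + l := by
      refine (abs_sub _ _).trans ?_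
      rw [Nat.abs_cast]
      have := abs_sub σ (k : ℝ)
      rw [Nat.abs_cast] at this
      linarith
    have h6 : (l : ℝ) ≤ r := by exact_mod_cast (hl.trans hi0).le
    rw [hD]
    nlinarith [mul_nonneg hσ0 hk0, mul_nonneg hr0 hk0]
  have h4 : ((k : ℝ) + 1) ≤ 2 ^ k := by
    have := Nat.lt_two_pow_self (n := k)
    exact_mod_cast this
  refine h3.trans ?_
  rw [mul_pow, ← pow_mul, mul_comm r k, pow_mul]
  exact mul_le_mul_of_nonneg_left (pow_le_pow_left₀ (by positivity) h4 r) (by positivity)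

/-- the upper bound -/
theorem upper {σ M m T : ℝ} {r K i0 : ℕ} {t : Fin r → ℕ} {h : Fin r → ℤ} (hi0 : i0 < r)
    (hK : ∀ j, |h j| ≤ K) (hM : 0 < M) (hMm : M ≤ m) (hm3 : m ≤ 3 * M) (hT1 : 1 ≤ T)
    (hT : ∀ j, (t j : ℝ) ≤ T) (hTM : T ≤ M) (hmin : ∀ l < i0, Sp t h l = 0) (k : ℕ) :
    |bn σ k * M ^ i0 * (m / M) ^ (σ - k) * Gs t h m (σ - k)| ≤
      ((1 + |σ|) * 2 ^ r) ^ k *
        (3 ^ |σ| * (r * K) * (|σ| + r + 1) ^ r * T ^ r * 2 ^ |σ|) := by
  have hσ0 := abs_nonneg σ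
  have hm0 : (0 : ℝ) < m := by linarith
  have hx1 : 1 ≤ m / M := (one_le_div hM).2 hMm
  have hx3 : m / M ≤ 3 := (div_le_iff₀ hM).2 hm3
  have hx0 : 0 < m / M := by linarith
  have hk0 : (0 : ℝ) ≤ k := Nat.cast_nonneg k
  have hi0' : (0 : ℝ) ≤ i0 := Nat.cast_nonneg i0
  have h1 : Gs t h m (σ - k) = ∑ j, (h j : ℝ) * Rm (σ - k) i0 ((t j : ℝ) / m) := by
    rw [Gs_eq t h m (σ - k) i0, sum_eq_zero (fun l hl => by
      rw [hmin l (mem_range.1 hl), mul_zero]), zero_add]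
  have h2 := sum_Rm_le t h m (σ := σ) (s := σ - k) (T := T) (i := i0) hm0 hK hT (hTM.trans hMm)
    (by have := le_abs_self σ; linarith)
  rw [← h1] at h2
  have h6 : (m / M) ^ (σ - k) ≤ 3 ^ |σ| := by
    calc (m / M) ^ (σ - k) ≤ (m / M) ^ |σ| := Real.rpow_le_rpow_of_exponent_le hx1
          (by have := le_abs_self σ; linarith)
      _ ≤ 3 ^ |σ| := Real.rpow_le_rpow hx0.le hx3 hσ0
  have h7 : M ^ i0 * (T / m) ^ i0 ≤ T ^ r := by
    rw [← mul_pow]
    have h8 : M * (T / m) ≤ T := by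
      rw [mul_div_assoc', div_le_iff₀ hm0]
      nlinarith
    calc (M * (T / m)) ^ i0 ≤ T ^ i0 := pow_le_pow_left₀ (by positivity) h8 i0
      _ ≤ T ^ r := pow_le_pow_right₀ hT1 hi0.le
  have h8 := bn_small (σ := σ) (k := k) hi0
  rw [abs_mul, abs_mul, abs_mul, abs_of_nonneg (by positivity : (0 : ℝ) ≤ M ^ i0),
    abs_of_nonneg (by positivity : (0 : ℝ) ≤ (m / M) ^ (σ - k))]
  have hP : (0 : ℝ) ≤ 2 ^ |σ| := by positivity
  have hQ : (0 : ℝ) ≤ 3 ^ |σ| := by positivity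
  have hrK : (0 : ℝ) ≤ r * K := by positivity
  have hD : (0 : ℝ) ≤ (|σ| + r + 1) ^ r * (2 ^ r) ^ k := by positivity
  have h9 : |bn σ k| * M ^ i0 * (m / M) ^ (σ - k) ≤ (1 + |σ|) ^ k * M ^ i0 * 3 ^ |σ| :=
    mul_le_mul (mul_le_mul_of_nonneg_right (bn_le σ k) (by positivity)) h6 (by positivity)
      (by positivity)
  calc |bn σ k| * M ^ i0 * (m / M) ^ (σ - k) * |Gs t h m (σ - k)|
      ≤ ((1 + |σ|) ^ k * M ^ i0 * 3 ^ |σ|) *
        (r * K * (|bn (σ - k) i0| * (T / m) ^ i0 * 2 ^ |σ|)) :=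
        mul_le_mul h9 h2 (abs_nonneg _) (by positivity)
    _ = ((1 + |σ|) ^ k * 3 ^ |σ| * (r * K) * 2 ^ |σ|) * (|bn (σ - k) i0| *
        (M ^ i0 * (T / m) ^ i0)) := by ring
    _ ≤ ((1 + |σ|) ^ k * 3 ^ |σ| * (r * K) * 2 ^ |σ|) * (((|σ| + r + 1) ^ r * (2 ^ r) ^ k) *
        T ^ r) :=
        mul_le_mul_of_nonneg_left (mul_le_mul h8 h7 (by positivity) hD) (by positivity)
    _ = _ := by
        rw [mul_pow]
        ring

/-- the lower bound, as a product -/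
theorem lower1 {σ M m T d : ℝ} {r K i0 k : ℕ} {t : Fin r → ℕ} {h : Fin r → ℤ} (hi0 : i0 < r)
    (hK : ∀ j, |h j| ≤ K) (hM : 1 ≤ M) (hMm : M ≤ m) (hm3 : m ≤ 3 * M) (hT1 : 1 ≤ T)
    (hT : ∀ j, (t j : ℝ) ≤ T) (hTM : T ≤ M) (hmin : ∀ l < i0, Sp t h l = 0)
    (hS : 1 ≤ |Sp t h i0|) (hd0 : 0 < d) (hd1 : d ≤ 1) (hd : ∀ n : ℕ, d ≤ |σ - n|)
    (hMc : r * K * (|σ| + Real.log M + r) * T ^ (r + 1) * 2 ^ |σ| / M ≤ 1 / 2)
    (hk : (k : ℝ) ≤ Real.log M) :
    (d ^ k / (k.factorial : ℝ)) * (3 ^ (-(|σ| + k)) : ℝ) * (3 ^ (-(r : ℝ)) : ℝ) *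
      (d ^ r / (r.factorial : ℝ)) / 2 ≤
    |bn σ k * M ^ i0 * (m / M) ^ (σ - k) * Gs t h m (σ - k)| := by
  have hσ0 := abs_nonneg σ
  have hM0 : 0 < M := by linarith
  have hm0 : (0 : ℝ) < m := by linarith
  have hx1 : 1 ≤ m / M := (one_le_div hM0).2 hMm
  have hx3 : m / M ≤ 3 := (div_le_iff₀ hM0).2 hm3
  have hx0 : 0 < m / M := by linarith
  have hk0 : (0 : ℝ) ≤ k := Nat.cast_nonneg k
  have hi0' : (0 : ℝ) ≤ i0 := Nat.cast_nonneg i0
  have hr0 : (0 : ℝ) ≤ r := Nat.cast_nonneg r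
  set s := σ - k with hs
  set b := bn s i0 with hb
  have h1 : Gs t h m s = b * (1 / m) ^ i0 * Sp t h i0 +
      ∑ j, (h j : ℝ) * Rm s (i0 + 1) ((t j : ℝ) / m) := by
    rw [Gs_eq t h m s (i0 + 1), sum_range_succ, sum_eq_zero (fun l hl => by
      rw [hmin l (mem_range.1 hl), mul_zero]), zero_add]
  have h2 := sum_Rm_le t h m (σ := σ) (s := s) (T := T) (i := i0 + 1) hm0 hK hT (hTM.trans hMm)
    (by have := le_abs_self σ; rw [hs]; push_cast; linarith)
  -- the relative size of the remainder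
  have h3 : |bn s (i0 + 1)| ≤ |b| * (|σ| + Real.log M + r) := by
    rw [bn_succ, abs_mul, abs_div, abs_of_nonneg (by positivity : (0 : ℝ) ≤ (i0 : ℝ) + 1)]
    refine mul_le_mul_of_nonneg_left ?_ (abs_nonneg _)
    refine (div_le_self (abs_nonneg _) (by linarith)).trans ?_
    have h5 : |s - i0| ≤ |σ| + k + i0 := by
      rw [hs]
      refine (abs_sub _ _).trans ?_
      rw [Nat.abs_cast]
      have := abs_sub σ (k : ℝ)
      rw [Nat.abs_cast] at this
      linarith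
    have h6 : (i0 : ℝ) ≤ r := by exact_mod_cast hi0.le
    linarith
  have hlog : 0 ≤ Real.log M := Real.log_nonneg hM
  have h4 : r * K * (|bn s (i0 + 1)| * (T / m) ^ (i0 + 1) * 2 ^ |σ|) ≤
      |b| * (1 / m) ^ i0 / 2 := by
    have e1 : (T / m) ^ (i0 + 1) = T ^ (i0 + 1) * (1 / m) ^ i0 * (1 / m) := by
      rw [div_eq_mul_one_div T m, mul_pow, pow_succ (1 / m)]
      ring
    have e2 : T ^ (i0 + 1) ≤ T ^ (r + 1) := pow_le_pow_right₀ hT1 (by omega)
    have e3 : (1 / m) ≤ 1 / M := one_div_le_one_div_of_le hM0 hMm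
    calc r * K * (|bn s (i0 + 1)| * (T / m) ^ (i0 + 1) * 2 ^ |σ|)
        = (r * K * 2 ^ |σ| * (1 / m) ^ i0) * (|bn s (i0 + 1)| * (T ^ (i0 + 1) * (1 / m))) := by
          rw [e1]
          ring
      _ ≤ (r * K * 2 ^ |σ| * (1 / m) ^ i0) * ((|b| * (|σ| + Real.log M + r)) *
          (T ^ (r + 1) * (1 / M))) :=
          mul_le_mul_of_nonneg_left (mul_le_mul h3
            (mul_le_mul e2 e3 (by positivity) (by positivity)) (by positivity) (by positivity))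
            (by positivity)
      _ = (|b| * (1 / m) ^ i0) *
          (r * K * (|σ| + Real.log M + r) * T ^ (r + 1) * 2 ^ |σ| / M) := by ring
      _ ≤ (|b| * (1 / m) ^ i0) * (1 / 2) := mul_le_mul_of_nonneg_left hMc (by positivity)
      _ = |b| * (1 / m) ^ i0 / 2 := by ring
  have h5 : |b| * (1 / m) ^ i0 / 2 ≤ |Gs t h m s| := by
    have e1 : |b * (1 / m) ^ i0 * Sp t h i0| - |∑ j, (h j : ℝ) * Rm s (i0 + 1) ((t j : ℝ) / m)| ≤
        |Gs t h m s| := by
      rw [h1]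
      have := abs_sub_abs_le_abs_sub (b * (1 / m) ^ i0 * Sp t h i0)
        (-∑ j, (h j : ℝ) * Rm s (i0 + 1) ((t j : ℝ) / m))
      rwa [abs_neg, sub_neg_eq_add] at this
    have e2 : |b| * (1 / m) ^ i0 ≤ |b * (1 / m) ^ i0 * Sp t h i0| := by
      rw [abs_mul, abs_mul, abs_of_nonneg (by positivity : (0 : ℝ) ≤ (1 / m) ^ i0)]
      exact le_mul_of_one_le_right (by positivity) hS
    have e3 := h2.trans h4
    linarith
  have h6 : d ^ r / (r.factorial : ℝ) ≤ |b| := by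
    have e1 := le_bn (s := s) hd0.le (fun l => by
      have := hd (k + l)
      rw [hs]
      push_cast at this
      rwa [sub_sub]) i0
    refine le_trans ?_ e1
    have e2 : d ^ r ≤ d ^ i0 := pow_le_pow_of_le_one hd0.le hd1 hi0.le
    have e3 : (i0.factorial : ℝ) ≤ r.factorial := by
      exact_mod_cast Nat.factorial_le hi0.le
    exact div_le_div₀ (by positivity) e2 (by positivity) e3
  have h7 : d ^ k / (k.factorial : ℝ) ≤ |bn σ k| := le_bn hd0.le hd k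
  have h8 : (3 : ℝ) ^ (-(|σ| + k)) ≤ (m / M) ^ s := by
    have e1 : (m / M) ^ (-(|σ| + k)) ≤ (m / M) ^ s := by
      refine Real.rpow_le_rpow_of_exponent_le hx1 ?_
      rw [hs]
      have := neg_abs_le σ
      linarith
    refine le_trans ?_ e1
    rw [Real.rpow_neg (by norm_num), Real.rpow_neg hx0.le]
    exact inv_anti₀ (by positivity) (Real.rpow_le_rpow hx0.le hx3 (by positivity))
  have h9 : (3 : ℝ) ^ (-(r : ℝ)) ≤ M ^ i0 * (1 / m) ^ i0 := by
    rw [← mul_pow, Real.rpow_neg (by norm_num), Real.rpow_natCast, ← inv_pow]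
    have e1 : (3 : ℝ)⁻¹ ≤ M * (1 / m) := by
      rw [mul_one_div, inv_eq_one_div, div_le_div_iff₀ (by norm_num) hm0]
      linarith
    calc ((3 : ℝ)⁻¹) ^ r ≤ ((3 : ℝ)⁻¹) ^ i0 :=
          pow_le_pow_of_le_one (by norm_num) (by norm_num) hi0.le
      _ ≤ (M * (1 / m)) ^ i0 := pow_le_pow_left₀ (by norm_num) e1 i0
  rw [abs_mul, abs_mul, abs_mul, abs_of_nonneg (by positivity : (0 : ℝ) ≤ M ^ i0),
    abs_of_nonneg (by positivity : (0 : ℝ) ≤ (m / M) ^ s)]
  calc (d ^ k / (k.factorial : ℝ)) * (3 ^ (-(|σ| + k)) : ℝ) * (3 ^ (-(r : ℝ)) : ℝ) *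
      (d ^ r / (r.factorial : ℝ)) / 2
      ≤ |bn σ k| * (m / M) ^ s * (M ^ i0 * (1 / m) ^ i0) * |b| / 2 := by
        refine div_le_div_of_nonneg_right ?_ (by norm_num)
        refine mul_le_mul (mul_le_mul (mul_le_mul h7 h8 (by positivity) (by positivity)) h9
          (by positivity) (by positivity)) h6 (by positivity) (by positivity)
    _ = |bn σ k| * M ^ i0 * (m / M) ^ s * (|b| * (1 / m) ^ i0 / 2) := by ring
    _ ≤ |bn σ k| * M ^ i0 * (m / M) ^ s * |Gs t h m s| :=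
        mul_le_mul_of_nonneg_left h5 (by positivity)

/-- the lower bound -/
theorem lower2 {σ d : ℝ} {r k : ℕ} (hd0 : 0 < d) (hd1 : d ≤ 1) (hk : 1 ≤ k) :
    Real.exp (-(((1 + r) * (-Real.log d) + 1 + (r + |σ| + 1) * Real.log 3 +
      Real.log (2 * r.factorial)) * (k : ℝ) ^ 2)) ≤
    (d ^ k / (k.factorial : ℝ)) * (3 ^ (-(|σ| + k)) : ℝ) * (3 ^ (-(r : ℝ)) : ℝ) *
      (d ^ r / (r.factorial : ℝ)) / 2 := by
  have hσ0 := abs_nonneg σ
  have hk1 : (1 : ℝ) ≤ k := by exact_mod_cast hk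
  have hr0 : (0 : ℝ) ≤ r := Nat.cast_nonneg r
  have hld : 0 ≤ -Real.log d := by
    have := Real.log_nonpos hd0.le hd1
    linarith
  have hl3 : 0 ≤ Real.log 3 := Real.log_nonneg (by norm_num)
  have hf0 : (0 : ℝ) < r.factorial := by positivity
  have hf1 : (1 : ℝ) ≤ r.factorial := by exact_mod_cast Nat.one_le_of_lt (Nat.factorial_pos r)
  have hlf : 0 ≤ Real.log (2 * r.factorial) := Real.log_nonneg (by linarith)
  have hkf : (0 : ℝ) < k.factorial := by positivity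
  have hk2 : (k : ℝ) ≤ (k : ℝ) ^ 2 := by nlinarith
  have hk3 : (1 : ℝ) ≤ (k : ℝ) ^ 2 := by nlinarith
  have hlogk : Real.log (k.factorial : ℝ) ≤ (k : ℝ) ^ 2 := by
    have e1 : (k.factorial : ℝ) ≤ (k : ℝ) ^ k := by exact_mod_cast Nat.factorial_le_pow k
    have e2 := Real.log_le_log hkf e1
    rw [Real.log_pow] at e2
    have e3 : Real.log k ≤ k := (Real.log_le_sub_one_of_pos (by linarith)).trans (by linarith)
    nlinarith
  have hpos : (0 : ℝ) < (d ^ k / (k.factorial : ℝ)) * (3 ^ (-(|σ| + k)) : ℝ) *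
      (3 ^ (-(r : ℝ)) : ℝ) * (d ^ r / (r.factorial : ℝ)) / 2 := by positivity
  rw [← Real.le_log_iff_exp_le hpos]
  have e : Real.log ((d ^ k / (k.factorial : ℝ)) * (3 ^ (-(|σ| + k)) : ℝ) *
      (3 ^ (-(r : ℝ)) : ℝ) * (d ^ r / (r.factorial : ℝ)) / 2) =
      k * Real.log d - Real.log k.factorial - (|σ| + k) * Real.log 3 - r * Real.log 3 +
        r * Real.log d - Real.log (2 * r.factorial) := by
    rw [Real.log_div (by positivity) (by norm_num), Real.log_mul (by positivity) (by positivity),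
      Real.log_mul (by positivity) (by positivity), Real.log_mul (by positivity) (by positivity),
      Real.log_div (by positivity) (by positivity), Real.log_div (by positivity) (by positivity),
      Real.log_pow, Real.log_pow, Real.log_rpow (by norm_num), Real.log_rpow (by norm_num),
      Real.log_mul (by norm_num) (by positivity)]
    ring
  rw [e]
  have f1 : k * (-Real.log d) ≤ (-Real.log d) * (k : ℝ) ^ 2 := by nlinarith
  have f2 : r * (-Real.log d) ≤ r * (-Real.log d) * (k : ℝ) ^ 2 :=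
    le_mul_of_one_le_right (by positivity) hk3
  have f3 : (r + |σ| + k) * Real.log 3 ≤ (r + |σ| + 1) * Real.log 3 * (k : ℝ) ^ 2 := by
    have f4 : r + |σ| + k ≤ (r + |σ| + 1) * (k : ℝ) ^ 2 := by
      have g1 : r ≤ r * (k : ℝ) ^ 2 := le_mul_of_one_le_right hr0 hk3
      have g2 : |σ| ≤ |σ| * (k : ℝ) ^ 2 := le_mul_of_one_le_right hσ0 hk3
      linarith
    calc (r + |σ| + k) * Real.log 3 ≤ ((r + |σ| + 1) * (k : ℝ) ^ 2) * Real.log 3 :=
          mul_le_mul_of_nonneg_right f4 hl3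
      _ = _ := by ring
  have f5 : Real.log (2 * r.factorial) ≤ Real.log (2 * r.factorial) * (k : ℝ) ^ 2 :=
    le_mul_of_one_le_right hlf hk3
  linarith

theorem core (σ : ℝ) (r K : ℕ) (t : Fin r → ℕ) (hσ : ∀ n : ℕ, σ ≠ n) (hr : 1 ≤ r)
    (ht : Function.Injective t) : ∃ (C A : ℝ), 1 ≤ C ∧ 0 ≤ A ∧ ∃ M0 : ℕ, ∀ M : ℕ, M0 ≤ M →
    ∀ h : Fin r → ℤ, (∀ j, |h j| ≤ K) → h ≠ 0 → ∃ i0 : ℕ, i0 < r ∧
    ∀ m : ℕ, M ≤ m → m ≤ 3 * M → ∃ c : ℕ → ℝ, ((∀ k : ℕ, |c k| ≤ C ^ (k + 1)) ∧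
      ∀ k : ℕ, 1 ≤ k → (k : ℝ) ≤ Real.log M → Real.exp (-(A * (k : ℝ) ^ 2)) ≤ |c k|) ∧
      ∀ y : ℝ, 0 ≤ y → y ≤ (M : ℝ) ^ (4 / 5 : ℝ) →
        HasSum (fun k : ℕ => (M : ℝ) ^ (σ - i0) * c k * (y / M) ^ k)
          (∑ j, (h j : ℝ) * ((m : ℝ) + t j + y) ^ σ) := by
  obtain ⟨d, hd0, hd1, hd⟩ := exists_dist hσ
  set T : ℝ := 1 + ∑ j, (t j : ℝ) with hTdef
  have hT1 : 1 ≤ T := by
    have : 0 ≤ ∑ j, (t j : ℝ) := sum_nonneg fun j _ => Nat.cast_nonneg _
    linarith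
  have hT : ∀ j, (t j : ℝ) ≤ T := by
    intro j
    have : (t j : ℝ) ≤ ∑ j, (t j : ℝ) :=
      single_le_sum (f := fun j => (t j : ℝ)) (fun i _ => Nat.cast_nonneg _) (mem_univ j)
    linarith
  set D : ℝ := |σ| + r + 1 with hD
  have hr0 : (1 : ℝ) ≤ r := by exact_mod_cast hr
  have hσ0 := abs_nonneg σ
  have hD1 : 1 ≤ D := by linarith
  set c1 : ℝ := 3 ^ |σ| * (r * K) * D ^ r * T ^ r * 2 ^ |σ| with hc1
  set c2 : ℝ := (1 + |σ|) * 2 ^ r with hc2
  have hc1' : 0 ≤ c1 := by positivity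
  have hc2' : 0 ≤ c2 := by positivity
  set A : ℝ := (1 + r) * (-Real.log d) + 1 + (r + |σ| + 1) * Real.log 3 +
    Real.log (2 * r.factorial) with hA
  have hld : 0 ≤ -Real.log d := by
    have := Real.log_nonpos hd0.le hd1
    linarith
  have hl3 : 0 ≤ Real.log 3 := Real.log_nonneg (by norm_num)
  have hf1 : (1 : ℝ) ≤ r.factorial := by exact_mod_cast Nat.one_le_of_lt (Nat.factorial_pos r)
  have hlf : 0 ≤ Real.log (2 * r.factorial) := Real.log_nonneg (by linarith)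
  have hA0 : 0 ≤ A := by
    rw [hA]
    positivity
  obtain ⟨M0, hM0⟩ := exists_M0 σ r K T
  refine ⟨1 + c1 + c2, A, by linarith, hA0, M0, fun M hM h hK hh => ?_⟩
  obtain ⟨hM1, hTM, hMb, hMc⟩ := hM0 M hM
  classical
  have hex := exists_ps ht hh
  let i0 := Nat.find hex
  obtain ⟨hi0, hS⟩ : i0 < r ∧ ∑ j, h j * (t j : ℤ) ^ i0 ≠ 0 := Nat.find_spec hex
  have hmin : ∀ l < i0, Sp t h l = 0 := by
    intro l hl
    have h1 := Nat.find_min hex hl
    have h2 : ∑ j, h j * (t j : ℤ) ^ l = 0 := by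
      by_contra h3
      exact h1 ⟨by omega, h3⟩
    have h4 : Sp t h l = ((∑ j, h j * (t j : ℤ) ^ l : ℤ) : ℝ) := by
      rw [Sp]
      push_cast
      rfl
    rw [h4, h2, Int.cast_zero]
  have hS1 : 1 ≤ |Sp t h i0| := by
    have h4 : Sp t h i0 = ((∑ j, h j * (t j : ℤ) ^ i0 : ℤ) : ℝ) := by
      rw [Sp]
      push_cast
      rfl
    rw [h4]
    exact_mod_cast Int.one_le_abs hS
  refine ⟨i0, hi0, fun m hm1 hm3 => ?_⟩
  have hMm : (M : ℝ) ≤ m := by exact_mod_cast hm1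
  have hm3' : (m : ℝ) ≤ 3 * M := by exact_mod_cast hm3
  have hM0' : (0 : ℝ) < M := by linarith
  have hm0 : (0 : ℝ) < m := by linarith
  set x : ℝ := (m : ℝ) / M with hx
  have hx1 : 1 ≤ x := (one_le_div hM0').2 hMm
  have hx3 : x ≤ 3 := (div_le_iff₀ hM0').2 hm3'
  have hx0 : 0 < x := by linarith
  refine ⟨fun k => bn σ k * (M : ℝ) ^ i0 * x ^ (σ - k) * Gs t h m (σ - k), ⟨fun k => ?_, fun k hk1 hk => ?_⟩,
    fun y hy0 hy => ?_⟩
  · -- the upper bound
    refine (upper hi0 hK hM0' hMm hm3' hT1 hT hTM hmin k).trans ?_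
    rw [pow_succ]
    exact mul_le_mul (pow_le_pow_left₀ hc2' (by linarith) k) (by linarith) hc1' (by positivity)
  · exact (lower2 (σ := σ) (r := r) hd0 hd1 hk1).trans
      (lower1 hi0 hK hM1 hMm hm3' hT1 hT hTM hmin hS1 hd0 hd1 hd hMc hk)
  · refine series t h i0 hM0' hMm hy0 (le_trans ?_ hMb)
    exact mul_le_mul_of_nonneg_left (div_le_div_of_nonneg_right hy hM0'.le) (by positivity)

end Pool.Agent.N833.GF
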